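import Mathlib
import Pool.Agent.Run7.h843.R6
import Pool.Agent.Run7.h843.R7

/-!
# The curves `y² = x³ + q α m x² + q β² m² x` with `q α² = 4 β² + γ²`: local images
-/

set_option autoImplicit false
set_option linter.unusedSectionVars false

attribute [-instance] DivisionRing.toRatAlgebra

namespace Pool.Agent.Run7.h289.D16

open Pool.Agent.Y682 (S1 S2)
open Run7.h843.Sha Run7.h843.Desc
open Run7.h843.R (cls3 near wv_m w_int_le sg e3 unit_part lam_part ch_unit red sq_or sg_mul sg_pos)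
open Pool.Agent.Y703.CQ (nr)

/-- the prime `q = 5` modulo `8` and the odd numbers `α, β, γ` -/
structure Dat (q : ℕ) (α β γ : ℤ) : Prop where
  pr : q.Prime
  h8 : q % 8 = 5
  rel : (q : ℤ) * α ^ 2 = 4 * β ^ 2 + γ ^ 2
  oa : α % 2 = 1
  ob : β % 2 = 1
  og : γ % 2 = 1
  cop : IsCoprime β γ

open Classical in
/-- `0` if `q α + 2 β √q` is a square modulo `p` -/
noncomputable def fq (q : ℕ) (α β : ℤ) (p : ℕ) : ZMod 2 :=
  if ∃ r s : ZMod p, r ^ 2 = q ∧ s ^ 2 = (q : ZMod p) * (α : ZMod p) + 2 * (β : ZMod p) * r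
  then 0 else 1

section

variable {p : ℕ} [hp : Fact p.Prime]

theorem wv_sq {z t : ℚ_[p]} (h : z ^ 2 = t) (ht : wv p t = 1) : wv p z = 1 := by
  have h3 := congrArg (wv p) h
  rw [map_pow, ht] at h3
  rcases lt_trichotomy (wv p z) 1 with h | h | h
  · exact absurd h3 (pow_lt_one₀ zero_le h two_ne_zero).ne
  · exact h
  · exact absurd h3 (one_lt_pow₀ h two_ne_zero).ne'

theorem ne_of_wv {z : ℚ_[p]} (h : wv p z = 1) : z ≠ 0 := by
  rw [← (Valuation.ne_zero_iff (wv p)), h]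
  exact one_ne_zero

theorem both_one {c c' : ℚ_[p]} (hc : wv p c ≤ 1) (hc' : wv p c' ≤ 1) (h : wv p (c * c') = 1) :
    wv p c = 1 ∧ wv p c' = 1 := by
  rw [map_mul] at h
  refine ⟨le_antisymm hc ?_, le_antisymm hc' ?_⟩
  · rw [← h]
    exact mul_le_of_le_one_right' hc'
  · rw [← h]
    exact mul_le_of_le_one_left' hc

theorem w_add_le {x y : ℚ_[p]} (hx : wv p x ≤ 1) (hy : wv p y ≤ 1) : wv p (x + y) ≤ 1 :=
  (Valuation.map_add _ _ _).trans (max_le hx hy)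

theorem w_mul_le {x y : ℚ_[p]} (hx : wv p x ≤ 1) (hy : wv p y ≤ 1) : wv p (x * y) ≤ 1 := by
  rw [map_mul]
  exact mul_le_one' hx hy

/-- the split places which divide `m` -/
theorem split_gen (h2 : p ≠ 2) {m : ℕ} (hm : Squarefree m) (hpm : p ∈ m.primeFactors) {A B : ℤ}
    {ρ ρ' θ : ℚ_[p]} (hρ : wv p ρ ≤ 1) (hρ' : wv p ρ' ≤ 1) (hB : ¬ (p : ℤ) ∣ B)
    (e1 : ρ + ρ' = -(A : ℚ_[p])) (e2 : ρ * ρ' = (B : ℚ_[p])) (e3 : θ ^ 2 = (B : ℚ_[p])) {X : ℤ}
    (hC : C1 ℚ_[p] ((A * m : ℤ) : ℚ) ((B * m ^ 2 : ℤ) : ℚ) (X : ℚ)) :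
    (∃ c : ℚ_[p], (X : ℚ_[p]) = c ^ 2) ∨ ∃ c : ℚ_[p], ((m * X : ℤ) : ℚ_[p]) * ρ = c ^ 2 := by
  have hβ : wv p (B : ℚ_[p]) = 1 := w_one hB
  obtain ⟨hρ, hρ'⟩ := both_one hρ hρ' (by rw [e2]; exact hβ)
  obtain ⟨z, x, hz, hzm, hx⟩ := hC
  rw [Rat.cast_intCast, Rat.cast_intCast] at hx
  rw [Rat.cast_intCast] at hzm
  have hwm := wv_m hm hpm
  have hm0 : ((m : ℤ) : ℚ_[p]) ≠ 0 := by
    rw [← (Valuation.ne_zero_iff (wv p)), hwm]
    exact WithZero.exp_ne_zero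
  have hρ0 := ne_of_wv hρ
  have hρ0' := ne_of_wv hρ'
  have hβ0 := ne_of_wv hβ
  have hθ0 : θ ≠ 0 := ne_of_wv (wv_sq e3 hβ)
  rw [Int.cast_mul, Int.cast_mul, Int.cast_pow] at hx
  rcases cls3 (wv p) (hens h2) hm0 (w_int_le A) hβ hβ0 (fun g hg => exp_odd (n := -1)
    (by norm_num) (hg.trans hwm)) hx with ⟨d, hd0, hd⟩ | ⟨d, hd0, hd⟩ | ⟨ξ, hxξ, hξ, hlt⟩
  · left
    refine ⟨d / z, ?_⟩
    rw [div_pow, ← hd, ← hzm]
    field_simp
  · left
    refine ⟨θ * d / z, ?_⟩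
    rw [← e3] at hd
    rw [div_pow, eq_div_iff (pow_ne_zero 2 hz), hzm, hd]
    ring
  · have key : ∃ t : ℚ_[p], t ≠ 0 ∧ ξ = ρ * t ^ 2 := by
      obtain ⟨t, ht0, ht | ht⟩ := near (wv p) (hens h2) (ρ := ρ) (ρ' := ρ')
        e1 e2 hρ hρ' hξ hlt
      · exact ⟨t, ht0, ht⟩
      · refine ⟨θ * t / ρ, div_ne_zero (mul_ne_zero hθ0 ht0) hρ0, ?_⟩
        rw [ht, div_pow, mul_pow, e3, ← e2]
        field_simp
    obtain ⟨t, ht0, ht⟩ := key
    right
    refine ⟨m * ρ * t / z, ?_⟩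
    rw [Int.cast_mul, div_pow, eq_div_iff (pow_ne_zero 2 hz)]
    rw [ht] at hxξ
    have e3 : ((m : ℤ) : ℚ_[p]) = (m : ℚ_[p]) := Int.cast_natCast m
    rw [e3] at hxξ ⊢
    linear_combination (m : ℚ_[p]) * ρ * (hzm.trans hxξ)

/-- a unit `ξ` with `ξ² + α ξ + β` not a unit, if `α² - 4 β = δ c²` -/
theorem sq_del {α β δ c : ℤ} (h : α ^ 2 - 4 * β = δ * c ^ 2) (hc : ¬ (p : ℤ) ∣ c)
    {ξ : ℚ_[p]} (hξ : wv p ξ ≤ 1) (hlt : wv p (ξ ^ 2 + α * ξ + β) < 1) : IsSquare (δ : ZMod p) := by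
  obtain ⟨x, rfl⟩ : ∃ x : ℤ_[p], (x : ℚ_[p]) = ξ := ⟨⟨ξ, w_le_iff.1 hξ⟩, rfl⟩
  have h3 : ((x ^ 2 + (α : ℤ_[p]) * x + (β : ℤ_[p]) : ℤ_[p]) : ℚ_[p]) =
      (x : ℚ_[p]) ^ 2 + α * x + β := by
    push_cast
    rfl
  rw [← h3, w_lt_iff] at hlt
  have h4 : PadicInt.toZMod (x ^ 2 + (α : ℤ_[p]) * x + (β : ℤ_[p])) = 0 := by
    rw [← RingHom.mem_ker, PadicInt.ker_toZMod, IsLocalRing.mem_maximalIdeal,
      PadicInt.mem_nonunits]
    exact hlt
  rw [map_add, map_add, map_pow, map_mul, map_intCast, map_intCast] at h4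
  have hcz : (c : ZMod p) ≠ 0 := fun h0 => hc ((ZMod.intCast_zmod_eq_zero_iff_dvd c p).1 h0)
  have h5 : ((α : ZMod p)) ^ 2 - 4 * (β : ZMod p) = (δ : ZMod p) * (c : ZMod p) ^ 2 := by
    exact_mod_cast congrArg (fun z : ℤ => (z : ZMod p)) h
  refine ⟨(2 * PadicInt.toZMod x + α) / c, ?_⟩
  field_simp
  linear_combination (-4) * h4 - h5

/-- the inert places which divide `m` -/
theorem inert_even (h2 : p ≠ 2) {δ : ℤ} (hns : ¬ IsSquare (δ : ZMod p)) {m : ℕ} (hm : Squarefree m)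
    (hpm : p ∈ m.primeFactors) {α β c : ℤ} (h : α ^ 2 - 4 * β = δ * c ^ 2) (hc : ¬ (p : ℤ) ∣ c)
    (hβ : ¬ (p : ℤ) ∣ β) {X : ℤ} (hX : X ≠ 0)
    (hC : C1 ℚ_[p] ((α * m : ℤ) : ℚ) ((β * m ^ 2 : ℤ) : ℚ) (X : ℚ)) : vv p X = 0 := by
  obtain ⟨z, x, hz, hzm, hx⟩ := hC
  rw [Rat.cast_intCast, Rat.cast_intCast] at hx
  rw [Rat.cast_intCast] at hzm
  have hwm := wv_m hm hpm
  have hm0 : ((m : ℤ) : ℚ_[p]) ≠ 0 := by
    rw [← (Valuation.ne_zero_iff (wv p)), hwm]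
    exact WithZero.exp_ne_zero
  have hβ1 := w_one hβ
  have hβ0 : (β : ℚ_[p]) ≠ 0 := by
    rw [← (Valuation.ne_zero_iff (wv p)), hβ1]
    exact one_ne_zero
  have hwz : wv p z ≠ 0 := (Valuation.ne_zero_iff _).2 hz
  rw [Int.cast_mul, Int.cast_mul, Int.cast_pow] at hx
  rcases cls3 (wv p) (hens h2) hm0 (w_int_le α) hβ1 hβ0 (fun g hg => exp_odd (n := -1) (by norm_num)
    (hg.trans hwm)) hx with ⟨c', -, hc'⟩ | ⟨c', -, hc'⟩ | ⟨ξ, -, hξ, hlt⟩
  · refine vv_of_even (p := p) hX (g := wv p c' / wv p z) ?_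
    have h5 := congrArg (wv p) (hzm.trans hc')
    rw [map_mul, map_pow, map_pow] at h5
    rw [div_pow, ← h5]
    field_simp
  · refine vv_of_even (p := p) hX (g := wv p c' / wv p z) ?_
    have h5 := congrArg (wv p) (hzm.trans hc')
    rw [map_mul, map_mul, map_pow, map_pow, hβ1, one_mul] at h5
    rw [div_pow, ← h5]
    field_simp
  · exact absurd (sq_del h hc hξ.le hlt) hns

/-- a place with non-split multiplicative reduction at the point of order two -/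
theorem nonsplit_even (h2 : p ≠ 2) {A B t : ℤ} (hA : ¬ (p : ℤ) ∣ A) (hAs : ¬ IsSquare (A : ZMod p))
    (hB0 : B ≠ 0) {u : ℤ} (hu : ¬ (p : ℤ) ∣ u) (hBt : B = u * t ^ 2) (ht : (p : ℤ) ∣ t)
    {X : ℤ} (hX : X ≠ 0)
    (hC : C1 ℚ_[p] (A : ℚ) (B : ℚ) (X : ℚ)) : vv p X = 0 := by
  obtain ⟨z, x, hz, hzm, hx⟩ := hC
  rw [Rat.cast_intCast, Rat.cast_intCast] at hx
  rw [Rat.cast_intCast] at hzm
  have hwz : wv p z ≠ 0 := (Valuation.ne_zero_iff _).2 hz
  have hA1 := w_one hA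
  have hBw : wv p (B : ℚ_[p]) = wv p (t : ℚ_[p]) ^ 2 := by
    rw [hBt, Int.cast_mul, Int.cast_pow, map_mul, w_one hu, one_mul, map_pow]
  have hBne : (B : ℚ_[p]) ≠ 0 := by exact_mod_cast hB0
  have hwB0 : wv p (B : ℚ_[p]) ≠ 0 := (Valuation.ne_zero_iff _).2 hBne
  have ht0 : wv p (t : ℚ_[p]) ≠ 0 := by
    intro h
    rw [h, zero_pow two_ne_zero] at hBw
    exact hwB0 hBw
  have htl : wv p (t : ℚ_[p]) < 1 := by
    obtain ⟨k, hk⟩ := ht
    rw [hk, Int.cast_mul, Int.cast_natCast, map_mul, w_self]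
    calc WithZero.exp (-1 : ℤ) * wv p (k : ℚ_[p]) ≤ WithZero.exp (-1 : ℤ) * 1 :=
          mul_le_mul_right (w_int_le k) _
      _ = WithZero.exp (-1 : ℤ) := mul_one _
      _ < 1 := by
        rw [← WithZero.exp_zero, WithZero.exp_lt_exp]
        norm_num
  have hBl : wv p (B : ℚ_[p]) < 1 := by
    rw [hBw]
    exact pow_lt_one₀ zero_le htl two_ne_zero
  have hAne : (A : ℚ_[p]) ≠ 0 := ne_of_wv hA1
  -- it is enough that the value of `x` is a square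
  suffices h : ∃ g, wv p x = g ^ 2 by
    obtain ⟨g, hg⟩ := h
    refine vv_of_even (p := p) hX (g := g / wv p z) ?_
    rw [div_pow, ← hg, ← hzm, map_mul, map_pow]
    field_simp
  rcases hx with h | h | ⟨hx0, y, hy⟩
  · exact ⟨1, by rw [h, map_one, one_pow]⟩
  · exact ⟨wv p (t : ℚ_[p]), by rw [h, hBw]⟩
  · have hwx : wv p x ≠ 0 := (Valuation.ne_zero_iff _).2 hx0
    have e := congrArg (wv p) hy
    rw [map_pow, map_mul] at e
    rcases lt_trichotomy (wv p x) 1 with h1 | h1 | h1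
    · rcases lt_trichotomy (wv p x) (wv p (B : ℚ_[p])) with h3 | h3 | h3
      · -- `B` dominates
        have h4 : wv p (x ^ 2 + A * x + B) = wv p (B : ℚ_[p]) := by
          rw [Valuation.map_add_eq_of_lt_right]
          refine lt_of_le_of_lt (Valuation.map_add _ _ _) (max_lt ?_ ?_)
          · rw [map_pow]
            calc wv p x ^ 2 = wv p x * wv p x := sq _
              _ ≤ wv p x * 1 := mul_le_mul_right h1.le _
              _ = wv p x := mul_one _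
              _ < _ := h3
          · rw [map_mul, hA1, one_mul]
            exact h3
        rw [h4, hBw] at e
        refine ⟨wv p y / wv p (t : ℚ_[p]), ?_⟩
        rw [div_pow, e]
        field_simp
      · exact ⟨wv p (t : ℚ_[p]), by rw [h3, hBw]⟩
      · -- `A x` dominates: `A` is a square
        exfalso
        have hlt : wv p (x / A + B / (A * x)) < 1 := by
          refine lt_of_le_of_lt (Valuation.map_add _ _ _) (max_lt ?_ ?_)
          · rw [map_div₀, hA1, div_one]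
            exact h1
          · rw [map_div₀, map_mul, hA1, one_mul, div_lt_iff₀ (zero_lt_iff.2 hwx), one_mul]
            exact h3
        obtain ⟨r, hr⟩ := hens h2 _ hlt
        have hr0 : r ≠ 0 := by
          rintro rfl
          have h5 : x / A + B / (A * x) = -1 := by linear_combination -hr
          rw [h5, Valuation.map_neg, map_one] at hlt
          exact lt_irrefl _ hlt
        have h5 : (A : ℚ_[p]) = (y / (x * r)) ^ 2 := by
          rw [div_pow, hy, mul_pow, hr]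
          have : (1 + (x / A + B / (A * x))) ≠ 0 := by
            rw [← hr]
            exact pow_ne_zero 2 hr0
          rw [eq_div_iff (mul_ne_zero (pow_ne_zero 2 hx0) this)]
          field_simp
          ring
        exact hAs (SqP.isSquare (p := p) hA ⟨_, by rw [Rat.cast_intCast]; exact h5⟩)
    · exact ⟨1, by rw [h1, one_pow]⟩
    · refine ⟨wv p y / wv p x, ?_⟩
      have h4 : wv p (x ^ 2 + A * x + B) = wv p x ^ 2 := by
        have h3 : wv p (x ^ 2 + A * x) = wv p x ^ 2 := by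
          rw [Valuation.map_add_eq_of_lt_left, map_pow]
          rw [map_mul, map_pow, sq, hA1]
          exact mul_lt_mul_of_pos_right h1 (zero_lt_iff.2 hwx)
        rw [Valuation.map_add_eq_of_lt_left, h3]
        rw [h3]
        exact hBl.trans (one_lt_pow₀ h1 two_ne_zero)
      rw [h4] at e
      rw [div_pow, e]
      field_simp

end

end Pool.Agent.Run7.h289.D16
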