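import Mathlib
import Pool.Agent.Run7.h289.D16.Q1

/-!
# The place `2`
-/

set_option autoImplicit false
set_option linter.unusedSectionVars false

attribute [-instance] DivisionRing.toRatAlgebra

namespace Pool.Agent.Run7.h289.D16

open Pool.Agent.Y682 (S1 S2)
open Run7.h843.Sha Run7.h843.Desc
open Run7.h843.R (sg e3 sg_mul sg_pos sg_neg)
open Pool.Agent.Y703.CQ (nr)

theorem ne14 (t : ℤ_[2]) : (1 + 4 * (t : ℚ_[2])) ≠ 0 := by
  intro ht
  have h1 : (1 + 4 * t : ℤ_[2]) = 0 := by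
    apply Subtype.ext
    push_cast
    rw [cc4]
    exact ht
  have h2 := congrArg (PadicInt.toZModPow 1) h1
  rw [map_add, map_mul, map_one, map_ofNat, map_zero] at h2
  have h3 : ∀ t : ZMod (2 ^ 1), 1 + 4 * t ≠ 0 := by decide
  exact h3 _ h2

theorem end14 (x y : ℚ_[2]) (t : ℤ_[2]) (hx : x ≠ 0) (hy : y ^ 2 = x * (1 + 4 * (t : ℚ_[2]))) :
    ∃ (c : ℚ_[2]) (t : ℤ_[2]), c ≠ 0 ∧ x = c ^ 2 * (1 + 4 * (t : ℚ_[2])) := by
  have hy0 : y ≠ 0 := by
    rintro rfl
    rw [zero_pow two_ne_zero] at hy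
    exact mul_ne_zero hx (ne14 t) hy.symm
  refine ⟨y / (1 + 4 * (t : ℚ_[2])), t, div_ne_zero hy0 (ne14 t), ?_⟩
  rw [div_pow, hy]
  have := ne14 t
  field_simp

/-- division by `4` with remainder -/
theorem rep4 (X : ℤ_[2]) : ∃ (R T : ℤ_[2]), (R = 0 ∨ R = 1 ∨ R = 2 ∨ R = 3) ∧ X = R + 4 * T := by
  have hr : ∀ r : ZMod (2 ^ 2), r = 0 ∨ r = 1 ∨ r = 2 ∨ r = 3 := by decide
  have key : ∀ (n : ℕ), PadicInt.toZModPow 2 X = (n : ZMod (2 ^ 2)) →
      ∃ T : ℤ_[2], X = (n : ℤ_[2]) + 4 * T := by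
    intro n hn
    have h5 : PadicInt.toZModPow 2 (X - (n : ℤ_[2])) = 0 := by
      rw [map_sub, hn, map_natCast, sub_self]
    rw [← RingHom.mem_ker, PadicInt.ker_toZModPow, Ideal.mem_span_singleton] at h5
    obtain ⟨T, hT⟩ := h5
    refine ⟨T, ?_⟩
    have e4 : (((2 : ℕ) : ℤ_[2])) ^ 2 = 4 := by norm_num
    rw [e4] at hT
    linear_combination hT
  rcases hr (PadicInt.toZModPow 2 X) with h | h | h | h
  · obtain ⟨T, hT⟩ := key 0 (by rw [h]; simp)
    exact ⟨0, T, Or.inl rfl, by rw [hT]; simp⟩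
  · obtain ⟨T, hT⟩ := key 1 (by rw [h]; simp)
    exact ⟨1, T, Or.inr (Or.inl rfl), by rw [hT]; simp⟩
  · obtain ⟨T, hT⟩ := key 2 (by rw [h]; simp)
    exact ⟨2, T, Or.inr (Or.inr (Or.inl rfl)), by rw [hT]; simp⟩
  · obtain ⟨T, hT⟩ := key 3 (by rw [h]; simp)
    exact ⟨3, T, Or.inr (Or.inr (Or.inr rfl)), by rw [hT]; simp⟩

/-- the place `2`, first curve: `a` is odd, not `7` modulo `8`, and `b = 5` modulo `8` -/
theorem img2 {a b : ℤ} (ha : a % 8 = 1 ∨ a % 8 = 3 ∨ a % 8 = 5) (hb : b % 8 = 5) {x : ℚ_[2]}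
    (h : S1 (a : ℚ_[2]) (b : ℚ_[2]) x) :
    ∃ (c : ℚ_[2]) (t : ℤ_[2]), c ≠ 0 ∧ x = c ^ 2 * (1 + 4 * (t : ℚ_[2])) := by
  obtain ⟨k, hk⟩ : ∃ k : ℤ, b = 1 + 4 * k := ⟨b / 4, by omega⟩
  have hb0 : (b : ℚ_[2]) ≠ 0 := by
    intro h0
    have : b = 0 := by exact_mod_cast h0
    omega
  rcases h with h | h | ⟨hx, y, hy⟩
  · exact ⟨1, 0, one_ne_zero, by rw [h]; simp⟩
  · refine ⟨1, (k : ℤ_[2]), one_ne_zero, ?_⟩
    rw [h, hk]
    push_cast
    ring
  · rcases rep2 x with ⟨X, rfl⟩ | ⟨n, Z, Z', hZZ, hZ⟩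
    · have hY1 : y ^ 2 = ((X * (X ^ 2 + (a : ℤ_[2]) * X + (b : ℤ_[2])) : ℤ_[2]) : ℚ_[2]) := by
        rw [hy]
        push_cast
        rfl
      obtain ⟨Y, hY⟩ := int_of_sq hY1
      have hYX : Y ^ 2 = X * (X ^ 2 + (a : ℤ_[2]) * X + (b : ℤ_[2])) := by
        apply Subtype.ext
        rw [PadicInt.coe_pow, hY, hY1]
      obtain ⟨R, T, hr, hX⟩ := rep4 X
      rcases hr with hR | hR | hR | hR <;> rw [hR] at hX
      · -- `X = 4 T`
        rw [zero_add] at hX
        refine end14 X y (4 * T ^ 2 + (a : ℤ_[2]) * T + (k : ℤ_[2])) hx ?_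
        rw [hy]
        have e : X ^ 2 + (a : ℤ_[2]) * X + (b : ℤ_[2]) =
            1 + 4 * (4 * T ^ 2 + (a : ℤ_[2]) * T + (k : ℤ_[2])) := by
          rw [hX, hk]
          push_cast
          ring
        have e' := congrArg (fun z : ℤ_[2] => (z : ℚ_[2])) e
        push_cast at e' ⊢
        simp only [cc4] at e' ⊢
        rw [e']
      · refine ⟨1, T, one_ne_zero, ?_⟩
        rw [hX]
        push_cast
        rw [cc4]
        ring
      · -- `X = 2 + 4 T`
        exfalso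
        have h3 := congrArg (PadicInt.toZModPow 2) hYX
        rw [hX] at h3
        simp only [map_pow, map_mul, map_add, map_ofNat, map_intCast] at h3
        have h4 : (4 : ZMod (2 ^ 2)) = 0 := by decide
        have hb' : (b : ZMod (2 ^ 2)) = 1 := by
          rw [hk]
          push_cast
          rw [h4]
          ring
        rw [hb', h4, zero_mul, add_zero] at h3
        have h5 : ∀ Y a : ZMod (2 ^ 2), Y ^ 2 ≠ 2 * (2 ^ 2 + a * 2 + 1) := by decide
        exact h5 _ _ h3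
      · exfalso
        have h3 := congrArg (PadicInt.toZModPow 3) hYX
        rw [hX] at h3
        simp only [map_pow, map_mul, map_add, map_ofNat, map_intCast] at h3
        have h8 : (8 : ZMod (2 ^ 3)) = 0 := by decide
        have hres : ∀ n r : ℤ, n % 8 = r → (n : ZMod (2 ^ 3)) = (r : ZMod (2 ^ 3)) := by
          intro n r hnr
          have e : n = r + 8 * (n / 8) := by omega
          rw [e]
          push_cast
          rw [h8]
          ring
        rw [hres b 5 hb] at h3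
        have h5 : ∀ Y T : ZMod (2 ^ 3), Y ^ 2 ≠ (3 + 4 * T) * ((3 + 4 * T) ^ 2 + 1 * (3 + 4 * T) + 5) ∧
            Y ^ 2 ≠ (3 + 4 * T) * ((3 + 4 * T) ^ 2 + 3 * (3 + 4 * T) + 5) ∧
            Y ^ 2 ≠ (3 + 4 * T) * ((3 + 4 * T) ^ 2 + 5 * (3 + 4 * T) + 5) := by decide
        obtain ⟨a1, a2, a3⟩ := h5 (PadicInt.toZModPow 3 Y) (PadicInt.toZModPow 3 T)
        rcases ha with ha | ha | ha
        · rw [hres a 1 ha] at h3
          push_cast at h3
          exact a1 h3
        · rw [hres a 3 ha] at h3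
          push_cast at h3
          exact a2 h3
        · rw [hres a 5 ha] at h3
          push_cast at h3
          exact a3 h3
    · have hZ0 : (Z : ℚ_[2]) ≠ 0 := by
        intro h0
        have : Z = 0 := Subtype.ext h0
        rw [this, zero_mul] at hZZ
        exact zero_ne_one hZZ
      have hZZ' : (Z : ℚ_[2]) * Z' = 1 := by
        rw [← PadicInt.coe_mul, hZZ, PadicInt.coe_one]
      rcases n with _ | n
      · -- `x = Z / 2`
        exfalso
        have hx2 : x * 2 = Z := by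
          rw [← hZ]
          ring
        have hx' : x * (2 * Z') = 1 := by
          rw [← hZZ', ← hx2]
          ring
        have hY1 : (2 * y / x) ^ 2 = ((2 * Z * (1 + 2 * (a : ℤ_[2]) * Z' +
            4 * (b : ℤ_[2]) * Z' ^ 2) : ℤ_[2]) : ℚ_[2]) := by
          rw [div_pow, mul_pow, hy, div_eq_iff (pow_ne_zero 2 hx)]
          push_cast
          simp only [cc2, cc4]
          rw [← hx2]
          linear_combination (-(4 * (a : ℚ_[2]) * x ^ 2) - 4 * b * x * (1 + x * (2 * Z'))) * hx'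
        obtain ⟨Y, hY⟩ := int_of_sq hY1
        have hYX : Y ^ 2 = 2 * Z * (1 + 2 * (a : ℤ_[2]) * Z' + 4 * (b : ℤ_[2]) * Z' ^ 2) := by
          apply Subtype.ext
          rw [PadicInt.coe_pow, hY, hY1]
        have h3 := congrArg (PadicInt.toZModPow 2) hYX
        simp only [map_pow, map_mul, map_add, map_ofNat, map_intCast, map_one] at h3
        have h6 := congrArg (PadicInt.toZModPow 2) hZZ
        rw [map_mul, map_one] at h6
        have h4 : (4 : ZMod (2 ^ 2)) = 0 := by decide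
        rw [h4, zero_mul, zero_mul, add_zero] at h3
        have h5 : ∀ Y Z Z' a : ZMod (2 ^ 2), Z * Z' = 1 → Y ^ 2 ≠ 2 * Z * (1 + 2 * a * Z') := by
          decide
        exact h5 _ _ _ _ h6 h3
      · have hx' : x * (4 * (2 ^ n * Z')) = 1 := by
          rw [← hZZ', ← hZ]
          ring
        refine end14 x (y / x) ((a : ℤ_[2]) * (2 ^ n * Z') +
          4 * (b : ℤ_[2]) * (2 ^ n * Z') ^ 2) hx ?_
        rw [div_pow, hy, div_eq_iff (pow_ne_zero 2 hx)]
        push_cast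
        simp only [cc2, cc4]
        set w : ℚ_[2] := 2 ^ n * Z' with hw
        linear_combination (-((a : ℚ_[2]) * x ^ 2) - b * x * (1 + x * (4 * w))) * hx'

end Pool.Agent.Run7.h289.D16
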