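import Mathlib
import Pool.Agent.Run7.h289.D16.Q2

/-!
# The matrix, the symbol of `q α + 2 β √q` and the rows of the linear systems
-/

set_option autoImplicit false
set_option linter.unusedSectionVars false

attribute [-instance] DivisionRing.toRatAlgebra

namespace Pool.Agent.Run7.h289.D16

open Finset
open Pool.Agent.Y682 (S1 S2)
open Run7.h843.Sha Run7.h843.Desc
open Run7.h843.R (sg e3 sg_mul sg_pos sg_neg unit_part lam_part ch_unit red sq_or w_int_le recip e3_sq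
  lam_m good_even)
open Pool.Agent.Y703.CQ (nr)

open Classical in
/-- a function set to zero off the primes modulo which `q` is a square -/
noncomputable def cu (q : ℕ) (x : ℕ → ZMod 2) (p : ℕ) : ZMod 2 :=
  if IsSquare (q : ZMod p) then x p else 0

/-- the kernel of the matrix -/
def Sol (q : ℕ) (f : ℕ → ZMod 2) (S : Finset ℕ) (x : ℕ → ZMod 2) : Prop :=
  ∀ p ∈ S, IsSquare (q : ZMod p) → ∑ r ∈ S, nr p r * (cu q x r + x p) + f p * x p = 0

/-- the matrix is nonsingular -/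
def Gd (q : ℕ) (f : ℕ → ZMod 2) (S : Finset ℕ) : Prop :=
  ∀ x : ℕ → ZMod 2, Sol q f S x → ∀ p ∈ S, IsSquare (q : ZMod p) → x p = 0

/-- the split primes of `m` -/
noncomputable def Sp (q m : ℕ) : Finset ℕ :=
  @Finset.filter ℕ (fun p : ℕ => IsSquare (q : ZMod p)) (Classical.decPred _) m.primeFactors

/-- the matrix -/
noncomputable def Mat (q : ℕ) (f : ℕ → ZMod 2) (m : ℕ) : Matrix (Sp q m) (Sp q m) (ZMod 2) :=
  fun p r => nr p r + if p = r then ∑ l ∈ m.primeFactors, nr p l + f p else 0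

theorem mem_Sp {q m p : ℕ} : p ∈ Sp q m ↔ p ∈ m.primeFactors ∧ IsSquare (q : ZMod p) :=
  @mem_filter ℕ (fun p : ℕ => IsSquare (q : ZMod p)) (Classical.decPred _) m.primeFactors p

theorem sum_cu {q m : ℕ} (p : ℕ) (x : ℕ → ZMod 2) :
    ∑ r ∈ m.primeFactors, nr p r * (cu q x r + x p) =
      ∑ r ∈ Sp q m, nr p r * x r + (∑ r ∈ m.primeFactors, nr p r) * x p := by
  classical
  have h1 : ∑ r ∈ m.primeFactors, nr p r * (cu q x r + x p) =
      ∑ r ∈ m.primeFactors, nr p r * cu q x r + (∑ r ∈ m.primeFactors, nr p r) * x p := by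
    rw [sum_mul, ← sum_add_distrib]
    exact sum_congr rfl fun q _ => by ring
  rw [h1]
  congr 1
  unfold Sp
  rw [sum_filter]
  refine sum_congr rfl fun r _ => ?_
  unfold cu
  split_ifs
  · rfl
  · rw [mul_zero]

theorem mulVec_eq {q : ℕ} {f : ℕ → ZMod 2} {m : ℕ} (v : Sp q m → ZMod 2) (p : Sp q m) :
    (Mat q f m).mulVec v p =
    ∑ r : Sp q m, nr p r * v r + (∑ l ∈ m.primeFactors, nr p l + f p) * v p := by
  unfold Mat Matrix.mulVec dotProduct
  have h : ∀ r : Sp q m, (nr p r + if p = r then ∑ l ∈ m.primeFactors, nr p l + f p else 0) * v r =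
      nr p r * v r + if p = r then (∑ l ∈ m.primeFactors, nr p l + f p) * v p else 0 := by
    intro r
    by_cases hq : p = r
    · rw [if_pos hq, if_pos hq, hq]; ring
    · rw [if_neg hq, if_neg hq]; ring
  rw [sum_congr rfl fun r _ => h r, sum_add_distrib, sum_ite_eq, if_pos (mem_univ _)]

theorem vecMul_eq {q : ℕ} {f : ℕ → ZMod 2} {m : ℕ} (v : Sp q m → ZMod 2) (p : Sp q m) :
    (Mat q f m).vecMul v p =
    ∑ r : Sp q m, v r * nr r p + v p * (∑ l ∈ m.primeFactors, nr p l + f p) := by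
  unfold Mat Matrix.vecMul dotProduct
  have h : ∀ r : Sp q m, v r * (nr r p + if r = p then ∑ l ∈ m.primeFactors, nr r l + f r else 0) =
      v r * nr r p + if r = p then v p * (∑ l ∈ m.primeFactors, nr p l + f p) else 0 := by
    intro r
    by_cases hq : r = p
    · rw [if_pos hq, if_pos hq, hq]; ring
    · rw [if_neg hq, if_neg hq]; ring
  rw [sum_congr rfl fun r _ => h r, sum_add_distrib, sum_ite_eq', if_pos (mem_univ _)]

theorem Gd_iff (q : ℕ) (f : ℕ → ZMod 2) (m : ℕ) :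
    Gd q f m.primeFactors ↔ (Mat q f m).det ≠ 0 := by
  classical
  rw [Ne, ← Matrix.exists_mulVec_eq_zero_iff, not_exists]
  constructor
  · rintro h v ⟨hv, hv0⟩
    apply hv
    let x : ℕ → ZMod 2 := fun r => if h : r ∈ Sp q m then v ⟨r, h⟩ else 0
    have hx : ∀ r : Sp q m, x r = v r := fun r => dif_pos r.2
    have h1 := h x (by
      intro p hp hp8
      have hpS : p ∈ Sp q m := mem_Sp.2 ⟨hp, hp8⟩
      have h2 := congrFun hv0 ⟨p, hpS⟩
      rw [mulVec_eq, Pi.zero_apply] at h2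
      rw [sum_cu, ← sum_coe_sort (Sp q m) (fun r => nr p r * x r), hx ⟨p, hpS⟩]
      have h3 : ∑ r : Sp q m, nr p r * x r = ∑ r : Sp q m, nr p r * v r :=
        sum_congr rfl fun r _ => by rw [hx]
      rw [h3]
      linear_combination h2)
    funext r
    have h2 := h1 r (mem_Sp.1 r.2).1 (mem_Sp.1 r.2).2
    rw [hx] at h2
    rw [h2, Pi.zero_apply]
  · intro h x hx p hp hp8
    by_contra hne
    have hpS : p ∈ Sp q m := mem_Sp.2 ⟨hp, hp8⟩
    refine h (fun r => x r) ⟨fun h0 => hne (congrFun h0 ⟨p, hpS⟩), ?_⟩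
    funext r
    rw [mulVec_eq, Pi.zero_apply]
    have h2 := hx r (mem_Sp.1 r.2).1 (mem_Sp.1 r.2).2
    rw [sum_cu, ← sum_coe_sort (Sp q m) (fun l => nr r l * x l)] at h2
    linear_combination h2

/-- the transposed system -/
theorem Gd_tr (q : ℕ) (f : ℕ → ZMod 2) (m : ℕ) : Gd q f m.primeFactors ↔ ∀ y : ℕ → ZMod 2,
    (∀ p ∈ Sp q m, ∑ r ∈ Sp q m, y r * nr r p + y p * (∑ l ∈ m.primeFactors, nr p l + f p) = 0) →
    ∀ p ∈ Sp q m, y p = 0 := by
  classical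
  rw [Gd_iff, Ne, ← Matrix.exists_vecMul_eq_zero_iff, not_exists]
  constructor
  · intro h y hy p hpS
    by_contra hne
    refine h (fun r => y r) ⟨fun h0 => hne (congrFun h0 ⟨p, hpS⟩), ?_⟩
    funext r
    rw [vecMul_eq, Pi.zero_apply]
    have h2 := hy r r.2
    rw [← sum_coe_sort (Sp q m) (fun l => y l * nr l r)] at h2
    exact h2
  · rintro h v ⟨hv, hv0⟩
    apply hv
    let x : ℕ → ZMod 2 := fun r => if h : r ∈ Sp q m then v ⟨r, h⟩ else 0
    have hx : ∀ r : Sp q m, x r = v r := fun r => dif_pos r.2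
    have h1 := h x (by
      intro p hpS
      have h2 := congrFun hv0 ⟨p, hpS⟩
      rw [vecMul_eq, Pi.zero_apply] at h2
      rw [← sum_coe_sort (Sp q m) (fun r => x r * nr r p), hx ⟨p, hpS⟩]
      have h3 : ∑ r : Sp q m, x r * nr r p = ∑ r : Sp q m, v r * nr r p :=
        sum_congr rfl fun r _ => by rw [hx]
      rw [h3]
      exact h2)
    funext r
    have h2 := h1 r r.2
    rw [hx] at h2
    rw [h2, Pi.zero_apply]

/-! ### Primes -/

/-- the twists -/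
structure Adm (q : ℕ) (α β γ : ℤ) (m : ℕ) : Prop where
  sqf : Squarefree m
  odd : m % 2 = 1
  nq : ¬ q ∣ m
  nb : ∀ l : ℕ, l.Prime → (l : ℤ) ∣ β → ¬ IsSquare (((q : ℤ) * α * m : ℤ) : ZMod l)
  ng : ∀ l : ℕ, l.Prime → (l : ℤ) ∣ γ → ¬ IsSquare ((-2 * ((q : ℤ) * α) * m : ℤ) : ZMod l)
  h7 : ((q : ℤ) * α * m) % 8 ≠ 7

section basic

variable {q : ℕ} {α β γ : ℤ} {m : ℕ}

theorem Dat.q2 (h : Dat q α β γ) : q ≠ 2 := by
  rintro rfl
  have := h.h8
  omega

theorem Dat.nqb (h : Dat q α β γ) : ¬ (q : ℤ) ∣ β := by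
  intro hb
  have hqi : Prime (q : ℤ) := Nat.prime_iff_prime_int.1 h.pr
  have h1 : (q : ℤ) ∣ γ := by
    refine hqi.dvd_of_dvd_pow (n := 2) ?_
    have e : γ ^ 2 = q * α ^ 2 - 4 * β ^ 2 := by linear_combination -h.rel
    rw [e]
    exact dvd_sub (dvd_mul_right _ _) ((dvd_pow hb two_ne_zero).mul_left 4)
  exact hqi.not_isUnit (h.cop.isUnit_of_dvd' hb h1)

theorem Dat.nqg (h : Dat q α β γ) : ¬ (q : ℤ) ∣ γ := by
  intro hg
  have hqi : Prime (q : ℤ) := Nat.prime_iff_prime_int.1 h.pr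
  have h1 : (q : ℤ) ∣ 4 * β ^ 2 := by
    have e : 4 * β ^ 2 = q * α ^ 2 - γ ^ 2 := by linear_combination -h.rel
    rw [e]
    exact dvd_sub (dvd_mul_right _ _) (dvd_pow hg two_ne_zero)
  rcases hqi.dvd_or_dvd h1 with h2 | h2
  · have h3 : q ∣ 2 ^ 2 := by exact_mod_cast h2
    have h4 := h.pr.dvd_of_dvd_pow h3
    exact h.q2 ((Nat.prime_dvd_prime_iff_eq h.pr Nat.prime_two).1 h4)
  · exact h.nqb (hqi.dvd_of_dvd_pow h2)

theorem Adm.p2 (h : Adm q α β γ m) {p : ℕ} (hp : p ∈ m.primeFactors) : p ≠ 2 := by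
  rintro rfl
  have := Nat.dvd_of_mem_primeFactors hp
  have h1 := h.odd
  omega

theorem Adm.pq (h : Adm q α β γ m) {p : ℕ} (hp : p ∈ m.primeFactors) : p ≠ q := by
  rintro rfl
  exact h.nq (Nat.dvd_of_mem_primeFactors hp)

theorem Adm.pb (h : Adm q α β γ m) {p : ℕ} (hp : p ∈ m.primeFactors) : ¬ (p : ℤ) ∣ β := by
  intro hb
  apply h.nb p (Nat.prime_of_mem_primeFactors hp) hb
  have h1 : (m : ZMod p) = 0 := (ZMod.natCast_eq_zero_iff m p).2 (Nat.dvd_of_mem_primeFactors hp)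
  push_cast
  rw [h1, mul_zero]
  exact IsSquare.zero

theorem Adm.pg (h : Adm q α β γ m) {p : ℕ} (hp : p ∈ m.primeFactors) : ¬ (p : ℤ) ∣ γ := by
  intro hb
  apply h.ng p (Nat.prime_of_mem_primeFactors hp) hb
  have h1 : (m : ZMod p) = 0 := (ZMod.natCast_eq_zero_iff m p).2 (Nat.dvd_of_mem_primeFactors hp)
  push_cast
  rw [h1, mul_zero]
  exact IsSquare.zero

theorem nd_pr {p q : ℕ} (hp : p.Prime) (hq : q.Prime) (h : p ≠ q) : ¬ (p : ℤ) ∣ (q : ℤ) := by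
  intro h1
  have h2 : p ∣ q := by exact_mod_cast h1
  exact h ((Nat.prime_dvd_prime_iff_eq hp hq).1 h2)

theorem nd_mul {p : ℕ} (hp : p.Prime) {a b : ℤ} (ha : ¬ (p : ℤ) ∣ a) (hb : ¬ (p : ℤ) ∣ b) :
    ¬ (p : ℤ) ∣ a * b := by
  intro h
  rcases Int.Prime.dvd_mul' hp h with h | h
  · exact ha h
  · exact hb h

theorem nd_sq {p : ℕ} (hp : p.Prime) {a : ℤ} (ha : ¬ (p : ℤ) ∣ a) : ¬ (p : ℤ) ∣ a ^ 2 := by
  rw [sq]
  exact nd_mul hp ha ha

end basic

section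

variable {p : ℕ} [hp : Fact p.Prime] {q : ℕ} {α β γ : ℤ}

/-- the symbol does not depend on the root -/
theorem fq_zero (h : Dat q α β γ) (h2 : p ≠ 2) (hpq : p ≠ q) (hpb : ¬ (p : ℤ) ∣ γ) {r : ZMod p}
    (hr : r ^ 2 = q) :
    fq q α β p = 0 ↔ IsSquare ((q : ZMod p) * (α : ZMod p) + 2 * (β : ZMod p) * r) := by
  classical
  have hpp : p.Prime := hp.out
  have hqz : (q : ZMod p) ≠ 0 := by
    intro h0
    rw [ZMod.natCast_eq_zero_iff] at h0
    exact hpq ((Nat.prime_dvd_prime_iff_eq hpp h.pr).1 h0)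
  have hgz : (γ : ZMod p) ≠ 0 := cast_ne.2 hpb
  have hr0 : r ≠ 0 := by
    rintro rfl
    rw [zero_pow two_ne_zero] at hr
    exact hqz hr.symm
  have hrel : (q : ZMod p) * (α : ZMod p) ^ 2 = 4 * (β : ZMod p) ^ 2 + (γ : ZMod p) ^ 2 := by
    have := congrArg (fun z : ℤ => (z : ZMod p)) h.rel
    push_cast at this
    exact this
  set A : ZMod p := (q : ZMod p) * (α : ZMod p) + 2 * (β : ZMod p) * r with hA
  set A' : ZMod p := (q : ZMod p) * (α : ZMod p) - 2 * (β : ZMod p) * r with hA'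
  have hprod : A * A' = (r * γ) ^ 2 := by
    rw [hA, hA']
    linear_combination (q : ZMod p) * hrel - (4 * (β : ZMod p) ^ 2 + (γ : ZMod p) ^ 2) * hr
  have hne : A * A' ≠ 0 := by
    rw [hprod]
    exact pow_ne_zero 2 (mul_ne_zero hr0 hgz)
  have hA0 : A ≠ 0 := left_ne_zero_of_mul hne
  have hA0' : A' ≠ 0 := right_ne_zero_of_mul hne
  have key : (∃ r s : ZMod p, r ^ 2 = q ∧ s ^ 2 = (q : ZMod p) * (α : ZMod p) +
      2 * (β : ZMod p) * r) ↔ IsSquare A := by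
    constructor
    · rintro ⟨r', s, hr', hs⟩
      have h1 : (r' - r) * (r' + r) = 0 := by linear_combination hr' - hr
      rcases mul_eq_zero.1 h1 with h3 | h3
      · exact ⟨s, by rw [hA, ← sq, hs]; linear_combination (-2 * (β : ZMod p)) * h3⟩
      · have h4 : A' = s ^ 2 := by rw [hA', hs]; linear_combination (-2 * (β : ZMod p)) * h3
        have hs0 : s ≠ 0 := by
          rintro rfl
          rw [zero_pow two_ne_zero] at h4
          exact hA0' h4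
        refine ⟨r * γ / s, ?_⟩
        field_simp
        rw [← h4, hprod]
        ring
    · rintro ⟨s, hs⟩
      exact ⟨r, s, hr, by rw [sq, ← hs]⟩
  unfold fq
  by_cases h3 : ∃ r s : ZMod p, r ^ 2 = q ∧ s ^ 2 = (q : ZMod p) * (α : ZMod p) +
      2 * (β : ZMod p) * r
  · rw [if_pos h3]
    exact ⟨fun _ => key.1 h3, fun _ => rfl⟩
  · rw [if_neg h3]
    exact ⟨fun h1 => absurd h1 (by decide), fun h1 => absurd (key.2 h1) h3⟩

theorem fq_one (h : Dat q α β γ) (h2 : p ≠ 2) (hpq : p ≠ q) (hpb : ¬ (p : ℤ) ∣ γ) {r : ZMod p}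
    (hr : r ^ 2 = q) :
    fq q α β p = 1 ↔ ¬ IsSquare ((q : ZMod p) * (α : ZMod p) + 2 * (β : ZMod p) * r) := by
  rw [← fq_zero h h2 hpq hpb hr]
  rcases zmod2_cases (fq q α β p) with h | h <;> rw [h] <;> decide

theorem exists_r (h2 : p ≠ 2) (hpq : ¬ (p : ℤ) ∣ (q : ℤ)) (hs : IsSquare (q : ZMod p)) :
    ∃ r : ℚ_[p], r ^ 2 = q := by
  obtain ⟨r, hr⟩ := Pool.Agent.Y971.SG.Lq.t_SQ p q h2 hpq (by
    rw [Int.cast_natCast]
    exact hs)
  refine ⟨r, ?_⟩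
  rw [sq, ← hr]
  push_cast
  rfl

/-- `Y (q α + 2 β √q)` is a square -/
theorem sq_th (h : Dat q α β γ) (h2 : p ≠ 2) (hpq : p ≠ q) (hpb : ¬ (p : ℤ) ∣ γ) {r : ℚ_[p]}
    (hr : r ^ 2 = q) (hw : wv p ((q : ℚ_[p]) * α + 2 * β * r) = 1) {X : ℤ} (hX : X ≠ 0)
    (hs : ∃ c : ℚ_[p], (X : ℚ_[p]) * ((q : ℚ_[p]) * α + 2 * β * r) = c ^ 2) :
    vv p X = 0 ∧ lam p X + sg X * e3 p + fq q α β p = 0 := by
  classical
  have hpp : p.Prime := hp.out
  have wq : wv p ((q : ℤ) : ℚ_[p]) = 1 := w_one (nd_pr hpp h.pr hpq)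
  have wr : wv p r = 1 := wv_sq (by rw [hr]; push_cast; rfl) wq
  obtain ⟨j, u, hu, h1, h3, c', hc'⟩ := unit_part (p := p) hX hw hs
  refine ⟨h3, ?_⟩
  obtain ⟨r', hr'⟩ : ∃ r' : ℤ_[p], (r' : ℚ_[p]) = r := ⟨⟨r, w_le_iff.1 wr.le⟩, rfl⟩
  have c2 : ((2 : ℤ_[p]) : ℚ_[p]) = 2 := by exact_mod_cast PadicInt.coe_natCast 2
  set θ : ℤ_[p] := (q : ℤ_[p]) * α + 2 * β * r' with hθ
  have hθc : (θ : ℚ_[p]) = (q : ℚ_[p]) * α + 2 * β * r := by
    rw [hθ]
    push_cast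
    rw [hr', c2]
  have h5 := red (p := p) θ (c := c') (by rw [hθc]; exact hc')
  have hrr : (PadicInt.toZMod r') ^ 2 = (q : ZMod p) := by
    have h5 : r' ^ 2 = (q : ℤ_[p]) := by
      apply Subtype.ext
      rw [PadicInt.coe_pow, hr', hr, PadicInt.coe_natCast]
    rw [← map_pow, h5, map_natCast]
  have hθz : PadicInt.toZMod θ = (q : ZMod p) * (α : ZMod p) + 2 * (β : ZMod p) *
      PadicInt.toZMod r' := by
    rw [hθ, map_add, map_mul, map_mul, map_mul, map_natCast, map_intCast, map_intCast, map_ofNat]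
  obtain ⟨a, b⟩ := lam_part hu h1
  have hch := ch_unit h2 hu
  rw [a, b, ← hch]
  have hu0 : (u : ZMod p) ≠ 0 := cast_ne.2 hu
  have hne : PadicInt.toZMod θ ≠ 0 := by
    intro h0
    rw [← RingHom.mem_ker, PadicInt.ker_toZMod, IsLocalRing.mem_maximalIdeal,
      PadicInt.mem_nonunits] at h0
    have h6 : wv p (θ : ℚ_[p]) < 1 := w_lt_iff.2 h0
    rw [hθc, hw] at h6
    exact lt_irrefl _ h6
  have hiff : IsSquare (u : ZMod p) ↔ IsSquare (PadicInt.toZMod θ) := by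
    obtain ⟨s, hs⟩ := h5
    constructor
    · rintro ⟨t, ht⟩
      have ht0 : t ≠ 0 := by
        rintro rfl
        rw [mul_zero] at ht
        exact hu0 ht
      refine ⟨s / t, ?_⟩
      field_simp
      rw [ht] at hs
      linear_combination hs
    · rintro ⟨t, ht⟩
      have ht0 : t ≠ 0 := by
        rintro rfl
        rw [mul_zero] at ht
        exact hne ht
      refine ⟨s / t, ?_⟩
      rw [ht] at hs
      field_simp
      linear_combination hs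
  rw [hθz] at hiff
  rcases zmod2_cases (fq q α β p) with h9 | h9
  · rw [h9, add_zero]
    unfold ch
    rw [if_pos (hiff.2 ((fq_zero h h2 hpq hpb hrr).1 h9))]
  · rw [h9]
    unfold ch
    rw [if_neg (fun h10 => (fq_one h h2 hpq hpb hrr).1 h9 (hiff.1 h10))]
    decide

/-- the values of the roots -/
theorem w_roots (h : Dat q α β γ) (h2 : p ≠ 2) (hpq : p ≠ q) (hpb : ¬ (p : ℤ) ∣ β)
    (hpg : ¬ (p : ℤ) ∣ γ) {r : ℚ_[p]} (hr : r ^ 2 = q) :
    wv p r = 1 ∧ wv p ((q : ℚ_[p]) * α + 2 * β * r) = 1 ∧ wv p ((q : ℚ_[p]) * α - 2 * β * r) = 1 ∧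
    wv p ((-((q : ℚ_[p]) * α) + γ * r) / 2) ≤ 1 ∧ wv p ((-((q : ℚ_[p]) * α) - γ * r) / 2) ≤ 1 ∧
    ((q : ℚ_[p]) * α ^ 2 = 4 * β ^ 2 + γ ^ 2) := by
  have hpp : p.Prime := hp.out
  have wq : wv p ((q : ℤ) : ℚ_[p]) = 1 := w_one (nd_pr hpp h.pr hpq)
  have wr : wv p r = 1 := wv_sq (by rw [hr]; push_cast; rfl) wq
  rw [Int.cast_natCast] at wq
  have hw2 := Run7.h843.R.w_pow2 (p := p) h2 1
  rw [pow_one] at hw2
  have hrel : (q : ℚ_[p]) * α ^ 2 = 4 * β ^ 2 + γ ^ 2 := by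
    have := congrArg (fun z : ℤ => (z : ℚ_[p])) h.rel
    push_cast at this
    exact this
  have wg : wv p (γ : ℚ_[p]) = 1 := w_one hpg
  have la : wv p ((q : ℚ_[p]) * α) ≤ 1 := w_mul_le wq.le (w_int_le α)
  have lb : wv p (2 * β * r) ≤ 1 := w_mul_le (w_mul_le hw2.le (w_int_le β)) wr.le
  have lg : wv p ((γ : ℚ_[p]) * r) ≤ 1 := w_mul_le wg.le wr.le
  have l1 : wv p ((q : ℚ_[p]) * α + 2 * β * r) ≤ 1 := w_add_le la lb
  have l2 : wv p ((q : ℚ_[p]) * α - 2 * β * r) ≤ 1 := by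
    rw [sub_eq_add_neg]
    refine w_add_le la ?_
    rw [Valuation.map_neg]
    exact lb
  have hprod : ((q : ℚ_[p]) * α + 2 * β * r) * ((q : ℚ_[p]) * α - 2 * β * r) = (r * γ) ^ 2 := by
    linear_combination (q : ℚ_[p]) * hrel - (4 * (β : ℚ_[p]) ^ 2 + (γ : ℚ_[p]) ^ 2) * hr
  obtain ⟨o1, o2⟩ := both_one l1 l2 (by rw [hprod, map_pow, map_mul, wr, wg]; simp)
  refine ⟨wr, o1, o2, ?_, ?_, hrel⟩
  · rw [map_div₀, hw2, div_one]
    refine w_add_le ?_ lg
    rw [Valuation.map_neg]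
    exact la
  · rw [map_div₀, hw2, div_one, sub_eq_add_neg]
    refine w_add_le ?_ ?_
    · rw [Valuation.map_neg]
      exact la
    · rw [Valuation.map_neg]
      exact lg

/-- the row of a split prime, first curve -/
theorem row1 (h : Dat q α β γ) {m : ℕ} (ha : Adm q α β γ m) (hpm : p ∈ m.primeFactors)
    (hsp : IsSquare (q : ZMod p)) {X : ℤ} (hX : X ≠ 0)
    (hC : C1 ℚ_[p] (((q : ℤ) * α * m : ℤ) : ℚ) (((q : ℤ) * β ^ 2 * m ^ 2 : ℤ) : ℚ) (X : ℚ)) :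
    lam p X + sg X * e3 p + vv p X * (lam p m + e3 p + fq q α β p) = 0 := by
  have hpp : p.Prime := hp.out
  have h2 := ha.p2 hpm
  have hpq := ha.pq hpm
  have hpb := ha.pb hpm
  have hpg := ha.pg hpm
  have hm0 : (m : ℤ) ≠ 0 := by exact_mod_cast ha.sqf.ne_zero
  have hmp : (0 : ℤ) < m := by exact_mod_cast Nat.pos_of_ne_zero ha.sqf.ne_zero
  obtain ⟨r, hr⟩ := exists_r (p := p) h2 (nd_pr hpp h.pr hpq) hsp
  obtain ⟨wr, w1, w2, w3, w4, hrel⟩ := w_roots h h2 hpq hpb hpg hr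
  have hB : ¬ (p : ℤ) ∣ (q : ℤ) * β ^ 2 := nd_mul hpp (nd_pr hpp h.pr hpq) (nd_sq hpp hpb)
  rcases split_gen h2 ha.sqf hpm (A := (q : ℤ) * α) (B := (q : ℤ) * β ^ 2)
    (ρ := (-((q : ℚ_[p]) * α) + γ * r) / 2) (ρ' := (-((q : ℚ_[p]) * α) - γ * r) / 2) (θ := r * β)
    w3 w4 hB (by push_cast; ring) (by
      push_cast
      linear_combination (q : ℚ_[p]) / 4 * hrel - (γ : ℚ_[p]) ^ 2 / 4 * hr) (by
      push_cast
      linear_combination (β : ℚ_[p]) ^ 2 * hr) hC with h3 | ⟨c, hc⟩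
  · obtain ⟨a, b⟩ := sq_or h2 hX h3
    rw [a, b, zero_mul, add_zero]
  · have hne : (m : ℤ) * X ≠ 0 := mul_ne_zero hm0 hX
    set ρ : ℚ_[p] := (-((q : ℚ_[p]) * α) + γ * r) / 2 with hρ
    have hkap : ρ * (-((q : ℚ_[p]) * α + 2 * β * r)) =
        (r * (2 * β - γ + α * r) / 2) ^ 2 := by
      rw [hρ]
      have e : (r * (2 * β - γ + α * r) / 2) ^ 2 = r ^ 2 * ((2 * β - γ) ^ 2 +
        2 * (2 * β - γ) * α * r + α ^ 2 * r ^ 2) / 4 := by ring
      rw [e, hr]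
      linear_combination (-(γ : ℚ_[p]) * β) * hr + (q : ℚ_[p]) / 4 * hrel
    have hρ0 : ρ ≠ 0 := by
      intro h0
      have hprod : ρ * ((-((q : ℚ_[p]) * α) - γ * r) / 2) = (r * β) ^ 2 := by
        rw [hρ]
        linear_combination (q : ℚ_[p]) / 4 * hrel - (γ : ℚ_[p]) ^ 2 / 4 * hr -
          (β : ℚ_[p]) ^ 2 * hr
      rw [h0, zero_mul] at hprod
      exact pow_ne_zero 2 (mul_ne_zero (ne_of_wv wr) (ne_of_wv (w_one hpb))) hprod.symm
    obtain ⟨a, b⟩ := sq_th h h2 hpq hpg hr w1 (neg_ne_zero.2 hne)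
      ⟨c * (r * (2 * β - γ + α * r) / 2) / ρ, by
        rw [div_pow, mul_pow, ← hc, ← hkap]
        push_cast
        field_simp⟩
    have esg : sg (-(m * X)) = 1 + sg X := by
      have e1 : -((m : ℤ) * X) = (-1) * (m * X) := by ring
      rw [e1, sg_mul (by norm_num) hne, sg_mul hm0 hX, sg_pos hmp, zero_add, sg_neg (by norm_num)]
    rw [vv_neg, vv_mul p hm0 hX, vv_sqfree ha.sqf hpm] at a
    rw [esg, lam_neg, lam_mul p hm0 hX] at b
    have a' : vv p X = 1 := by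
      rcases zmod2_cases (vv p X) with h | h
      · rw [h] at a
        exact absurd a (by decide)
      · exact h
    rw [a', one_mul]
    linear_combination b

/-- the row of a split prime, second curve -/
theorem row2 (h : Dat q α β γ) {m : ℕ} (ha : Adm q α β γ m) (hpm : p ∈ m.primeFactors)
    (hsp : IsSquare (q : ZMod p)) {X : ℤ} (hX : 0 < X)
    (hC : C1 ℚ_[p] ((-2 * ((q : ℤ) * α) * m : ℤ) : ℚ) (((q : ℤ) * γ ^ 2 * m ^ 2 : ℤ) : ℚ) (X : ℚ)) :
    lam p X + vv p X * (lam p m + fq q α β p) = 0 := by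
  have hpp : p.Prime := hp.out
  have h2 := ha.p2 hpm
  have hpq := ha.pq hpm
  have hpb := ha.pb hpm
  have hpg := ha.pg hpm
  have hm0 : (m : ℤ) ≠ 0 := by exact_mod_cast ha.sqf.ne_zero
  have hmp : (0 : ℤ) < m := by exact_mod_cast Nat.pos_of_ne_zero ha.sqf.ne_zero
  obtain ⟨r, hr⟩ := exists_r (p := p) h2 (nd_pr hpp h.pr hpq) hsp
  obtain ⟨wr, w1, w2, w3, w4, hrel⟩ := w_roots h h2 hpq hpb hpg hr
  have hB : ¬ (p : ℤ) ∣ (q : ℤ) * γ ^ 2 := nd_mul hpp (nd_pr hpp h.pr hpq) (nd_sq hpp hpg)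
  rcases split_gen h2 ha.sqf hpm (A := -2 * ((q : ℤ) * α)) (B := (q : ℤ) * γ ^ 2)
    (ρ := (q : ℚ_[p]) * α + 2 * β * r) (ρ' := (q : ℚ_[p]) * α - 2 * β * r) (θ := r * γ)
    w1.le w2.le hB (by push_cast; ring) (by
      push_cast
      linear_combination (q : ℚ_[p]) * hrel - (4 * (β : ℚ_[p]) ^ 2) * hr) (by
      push_cast
      linear_combination (γ : ℚ_[p]) ^ 2 * hr) hC with h3 | h3
  · obtain ⟨a, b⟩ := sq_or h2 hX.ne' h3
    rw [sg_pos hX, zero_mul, add_zero] at b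
    rw [a, b, zero_mul, add_zero]
  · obtain ⟨a, b⟩ := sq_th h h2 hpq hpg hr w1 (mul_ne_zero hm0 hX.ne') h3
    rw [vv_mul p hm0 hX.ne', vv_sqfree ha.sqf hpm] at a
    rw [sg_pos (mul_pos hmp hX), zero_mul, add_zero, lam_mul p hm0 hX.ne'] at b
    have a' : vv p X = 1 := by
      rcases zmod2_cases (vv p X) with h | h
      · rw [h] at a
        exact absurd a (by decide)
      · exact h
    rw [a', one_mul]
    linear_combination b

end

end Pool.Agent.Run7.h289.D16
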