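import Mathlib
import Pool.Agent.Run7.h289.D16.Q3

/-!
# The Selmer groups of `y² = x³ + q α m x² + q β² m² x`
-/

set_option autoImplicit false
set_option linter.unusedSectionVars false

attribute [-instance] DivisionRing.toRatAlgebra

namespace Pool.Agent.Run7.h289.D16

open Finset
open Pool.Agent.Y682 (S1 S2 LL1 LL2 Sq quot_eq IsT Zc Zc_card Zc_lower MP)
open Run7.h843.Sha Run7.h843.Desc
open Run7.h843.R (wv_m w_int_le sg e3 sg_mul sg_pos sg_neg lam_m good_even recip e3_sq)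
open Pool.Agent.Y703.CQ (nr)

theorem odd_mul {a b : ℤ} (ha : a % 2 = 1) (hb : b % 2 = 1) : (a * b) % 2 = 1 := by
  rw [Int.mul_emod, ha, hb]
  rfl

theorem odd_sq8 {a : ℤ} (h : a % 2 = 1) : a ^ 2 % 8 = 1 := by
  have h1 : a % 8 = 1 ∨ a % 8 = 3 ∨ a % 8 = 5 ∨ a % 8 = 7 := by omega
  rw [sq, Int.mul_emod]
  rcases h1 with h1 | h1 | h1 | h1 <;> rw [h1] <;> rfl

theorem w14 (t : ℤ_[2]) : wv 2 (1 + 4 * (t : ℚ_[2])) = 1 := by
  have h1 : wv 2 (4 * (t : ℚ_[2])) < 1 := by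
    have e : (4 : ℚ_[2]) = ((2 : ℕ) : ℚ_[2]) * ((2 : ℕ) : ℚ_[2]) := by norm_num
    rw [e, map_mul, map_mul, w_self]
    have ht : wv 2 (t : ℚ_[2]) ≤ 1 := w_le_iff.2 t.2
    calc WithZero.exp (-1 : ℤ) * WithZero.exp (-1 : ℤ) * wv 2 (t : ℚ_[2]) ≤
        WithZero.exp (-1 : ℤ) * WithZero.exp (-1 : ℤ) * 1 := mul_le_mul_right ht _
      _ = WithZero.exp (-2 : ℤ) := by
        rw [mul_one, ← WithZero.exp_add]
        rfl
      _ < 1 := by
        rw [← WithZero.exp_zero, WithZero.exp_lt_exp]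
        norm_num
  exact Valuation.map_one_add_of_lt _ h1

theorem mod4_of {n : ℤ} (hn : n % 2 = 1) {d : ℚ_[2]} {t : ℤ_[2]}
    (h : (n : ℚ_[2]) = d ^ 2 * (1 + 4 * (t : ℚ_[2]))) : n % 4 = 1 := by
  have hw : wv 2 (n : ℚ_[2]) = 1 := w_one (by
    intro h0
    have h1 : (2 : ℤ) ∣ n := by exact_mod_cast h0
    omega)
  have hw4 := w14 t
  have hd : wv 2 d = 1 := by
    have e := congrArg (wv 2) h
    rw [hw, map_mul, hw4, mul_one] at e
    exact wv_sq rfl e.symm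
  obtain ⟨D, hD⟩ : ∃ D : ℤ_[2], (D : ℚ_[2]) = d := ⟨⟨d, w_le_iff.1 hd.le⟩, rfl⟩
  have e : (n : ℤ_[2]) = D ^ 2 * (1 + 4 * t) := by
    apply Subtype.ext
    push_cast
    rw [hD, cc4]
    exact h
  have e2 := congrArg (PadicInt.toZModPow 2) e
  simp only [map_pow, map_mul, map_add, map_ofNat, map_intCast, map_one] at e2
  have h4 : (4 : ZMod (2 ^ 2)) = 0 := by decide
  rw [h4, zero_mul, add_zero, mul_one] at e2
  have h3 : n % 4 = 1 ∨ n % 4 = 3 := by omega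
  rcases h3 with h3 | h3
  · exact h3
  · exfalso
    have e3 : (n : ZMod (2 ^ 2)) = 3 := by
      have e4 : n = 3 + 4 * (n / 4) := by omega
      rw [e4]
      push_cast
      rw [h4]
      ring
    rw [e3] at e2
    have h5 : ∀ D : ZMod (2 ^ 2), 3 ≠ D ^ 2 := by decide
    exact h5 _ e2

/-- a product of odd numbers -/
theorem prod4 {T : Finset ℕ} (h : ∀ r ∈ T, r % 2 = 1) :
    ((∏ r ∈ T, r) % 4 = 1 ∧ ∑ r ∈ T, e3 r = 0) ∨ ((∏ r ∈ T, r) % 4 = 3 ∧ ∑ r ∈ T, e3 r = 1) := by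
  classical
  induction T using Finset.induction_on with
  | empty => simp
  | insert a s ha ih =>
    have h1 := ih fun p hp => h p (mem_insert_of_mem hp)
    have h2 := h a (mem_insert_self a s)
    rw [prod_insert ha, sum_insert ha, Nat.mul_mod]
    have e : (1 : ZMod 2) + 1 = 0 := by decide
    have ea : (a % 4 = 1 ∧ e3 a = 0) ∨ (a % 4 = 3 ∧ e3 a = 1) := by
      have h3 : a % 4 = 1 ∨ a % 4 = 3 := by omega
      rcases h3 with h3 | h3
      · left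
        refine ⟨h3, ?_⟩
        unfold e3
        rw [if_neg (by omega)]
      · right
        refine ⟨h3, ?_⟩
        unfold e3
        rw [if_pos (by omega)]
    rcases h1 with ⟨h4, h5⟩ | ⟨h4, h5⟩ <;> rcases ea with ⟨h6, h7⟩ | ⟨h6, h7⟩ <;>
      simp [h4, h5, h6, h7, e]

section

variable {q : ℕ} {α β γ : ℤ} {m : ℕ}

theorem Dat.qo (h : Dat q α β γ) : (q : ℤ) % 2 = 1 := by
  have := h.h8
  omega

theorem Adm.mo (h : Adm q α β γ m) : (m : ℤ) % 2 = 1 := by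
  have := h.odd
  omega

theorem a_mod (h : Dat q α β γ) (ha : Adm q α β γ m) : ((q : ℤ) * α * m) % 8 = 1 ∨
    ((q : ℤ) * α * m) % 8 = 3 ∨ ((q : ℤ) * α * m) % 8 = 5 := by
  have h1 := odd_mul (odd_mul h.qo h.oa) ha.mo
  have h2 := ha.h7
  omega

theorem b_mod (h : Dat q α β γ) (ha : Adm q α β γ m) : ((q : ℤ) * β ^ 2 * m ^ 2) % 8 = 5 := by
  have h1 : (q : ℤ) % 8 = 5 := by
    have := h.h8
    omega
  rw [Int.mul_emod, Int.mul_emod (q : ℤ), h1, odd_sq8 h.ob, odd_sq8 ha.mo]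
  rfl

/-- the class of `X` at `2`, first curve -/
theorem class2 (h : Dat q α β γ) (ha : Adm q α β γ m) {X : ℤ}
    (hC : C1 ℚ_[2] (((q : ℤ) * α * m : ℤ) : ℚ) (((q : ℤ) * β ^ 2 * m ^ 2 : ℤ) : ℚ) (X : ℚ)) :
    ∃ (c : ℚ_[2]) (t : ℤ_[2]), c ≠ 0 ∧ (X : ℚ_[2]) = c ^ 2 * (1 + 4 * (t : ℚ_[2])) := by
  obtain ⟨z, x, hz, hzx, hx⟩ := hC
  rw [Rat.cast_intCast] at hzx
  rw [Rat.cast_intCast, Rat.cast_intCast] at hx
  obtain ⟨c, t, hc0, hc⟩ := img2 (a_mod h ha) (b_mod h ha) hx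
  refine ⟨c / z, t, div_ne_zero hc0 hz, ?_⟩
  rw [hc] at hzx
  rw [div_pow]
  field_simp
  linear_combination hzx

theorem q_nS (ha : Adm q α β γ m) : q ∉ Sp q m := fun h => ha.pq (mem_Sp.1 h).1 rfl

theorem nr_q {p : ℕ} (h : IsSquare (q : ZMod p)) : nr p q = 0 := by
  classical
  unfold nr
  rw [if_pos h]

theorem nlm {l : ℕ} (hl : l.Prime) (ha : Adm q α β γ m) (hlm : l ∉ m.primeFactors) :
    ¬ (l : ℤ) ∣ m := by
  intro h
  exact hlm (Nat.mem_primeFactors.2 ⟨hl, by exact_mod_cast h, ha.sqf.ne_zero⟩)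

/-- the exponents outside the set `Sp q m`, first curve -/
theorem out1 (h : Dat q α β γ) (ha : Adm q α β γ m) {X : ℤ} (hX : X ≠ 0) {l : ℕ} (hl : l.Prime)
    (hlq : l ≠ q) (hlS : l ∉ Sp q m)
    (hC : @C1 (@Padic l ⟨hl⟩) _ (((q : ℤ) * α * m : ℤ) : ℚ) (((q : ℤ) * β ^ 2 * m ^ 2 : ℤ) : ℚ)
      (X : ℚ)) : vv l X = 0 := by
  by_cases hl2 : l = 2
  · subst hl2
    obtain ⟨c, t, hc0, hc⟩ := class2 h ha hC
    refine vv_of_even (p := 2) hX (g := wv 2 c) ?_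
    rw [hc, map_mul, w14, mul_one, map_pow]
  · have : Fact l.Prime := ⟨hl⟩
    by_cases hlm : l ∈ m.primeFactors
    · have hns : ¬ IsSquare ((q : ℤ) : ZMod l) := by
        rw [Int.cast_natCast]
        exact fun h9 => hlS (mem_Sp.2 ⟨hlm, h9⟩)
      refine inert_even (p := l) hl2 hns ha.sqf hlm (α := (q : ℤ) * α) (β := (q : ℤ) * β ^ 2)
        (c := γ) ?_ (ha.pg hlm) (nd_mul hl (nd_pr hl h.pr hlq) (nd_sq hl (ha.pb hlm))) hX hC
      linear_combination (q : ℤ) * h.rel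
    · have hlm' := nlm hl ha hlm
      by_cases hlb : (l : ℤ) ∣ β
      · have hns := ha.nb l hl hlb
        have hA : ¬ (l : ℤ) ∣ ((q : ℤ) * α * m) := by
          intro h9
          apply hns
          rw [(ZMod.intCast_zmod_eq_zero_iff_dvd _ l).2 h9]
          exact IsSquare.zero
        have hB0 : ((q : ℤ) * β ^ 2 * m ^ 2) ≠ 0 := by
          have := b_mod h ha
          omega
        exact nonsplit_even (p := l) hl2 hA hns hB0 (u := q) (nd_pr hl h.pr hlq) (t := β * m)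
          (by ring) (Dvd.dvd.mul_right hlb _) hX hC
      · exact good_even (p := l) (nd_mul hl (nd_mul hl (nd_pr hl h.pr hlq) (nd_sq hl hlb))
          (nd_sq hl hlm')) hX hC

/-- the exponents outside the set `Sp q m`, second curve -/
theorem out2 (h : Dat q α β γ) (ha : Adm q α β γ m) {X : ℤ} (hX : X ≠ 0) {l : ℕ} (hl : l.Prime)
    (hlq : l ≠ q) (hlS : l ∉ Sp q m)
    (hC : @C1 (@Padic l ⟨hl⟩) _ ((-2 * ((q : ℤ) * α) * m : ℤ) : ℚ)
      (((q : ℤ) * γ ^ 2 * m ^ 2 : ℤ) : ℚ) (X : ℚ)) : vv l X = 0 := by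
  have : Fact l.Prime := ⟨hl⟩
  by_cases hlm : l ∈ m.primeFactors
  · have hl2 := ha.p2 hlm
    have hns : ¬ IsSquare ((q : ℤ) : ZMod l) := by
      rw [Int.cast_natCast]
      exact fun h9 => hlS (mem_Sp.2 ⟨hlm, h9⟩)
    refine inert_even (p := l) hl2 hns ha.sqf hlm (α := -2 * ((q : ℤ) * α))
      (β := (q : ℤ) * γ ^ 2) (c := 4 * β) ?_ ?_
      (nd_mul hl (nd_pr hl h.pr hlq) (nd_sq hl (ha.pg hlm))) hX hC
    · linear_combination 4 * (q : ℤ) * h.rel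
    · refine nd_mul hl ?_ (ha.pb hlm)
      have := Run7.h843.R.odd_nd hl hl2 2
      norm_num at this
      exact this
  · have hlm' := nlm hl ha hlm
    by_cases hlb : (l : ℤ) ∣ γ
    · have hl2 : l ≠ 2 := by
        rintro rfl
        have h1 : (2 : ℤ) ∣ γ := by exact_mod_cast hlb
        have := h.og
        omega
      have hns := ha.ng l hl hlb
      have hA : ¬ (l : ℤ) ∣ (-2 * ((q : ℤ) * α) * m) := by
        intro h9
        apply hns
        rw [(ZMod.intCast_zmod_eq_zero_iff_dvd _ l).2 h9]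
        exact IsSquare.zero
      have hB0 : ((q : ℤ) * γ ^ 2 * m ^ 2) ≠ 0 := by
        have h1 : (q : ℤ) ≠ 0 := by exact_mod_cast h.pr.ne_zero
        have h2 : γ ≠ 0 := by
          have := h.og
          omega
        have h3 : (m : ℤ) ≠ 0 := by exact_mod_cast ha.sqf.ne_zero
        exact mul_ne_zero (mul_ne_zero h1 (pow_ne_zero 2 h2)) (pow_ne_zero 2 h3)
      exact nonsplit_even (p := l) hl2 hA hns hB0 (u := q) (nd_pr hl h.pr hlq) (t := γ * m)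
        (by ring) (Dvd.dvd.mul_right hlb _) hX hC
    · exact good_even (p := l) (nd_mul hl (nd_mul hl (nd_pr hl h.pr hlq) (nd_sq hl hlb))
        (nd_sq hl hlm')) hX hC

/-- the symbol of `X` as a sum -/
theorem lam_Sp (ha : Adm q α β γ m) {p : ℕ} [Fact p.Prime] (hp : IsSquare (q : ZMod p)) {X : ℤ}
    (hout : ∀ l : ℕ, l.Prime → l ≠ q → l ∉ Sp q m → vv l X = 0) :
    lam p X = ∑ r ∈ Sp q m, vv r X * nr p r := by
  rw [lam_eq_sum (S := insert q (Sp q m)), sum_insert (q_nS ha), nr_q hp, mul_zero, zero_add]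
  intro l hl hls
  rw [mem_insert, not_or] at hls
  exact hout l hl hls.1 hls.2

/-- the sign of `X` -/
theorem sgnq (h : Dat q α β γ) (ha : Adm q α β γ m) {X : ℤ} (hX : X ≠ 0)
    (hout : ∀ l : ℕ, l.Prime → l ≠ q → l ∉ Sp q m → vv l X = 0) {c : ℚ_[2]} {t : ℤ_[2]}
    (hc : (X : ℚ_[2]) = c ^ 2 * (1 + 4 * (t : ℚ_[2]))) : sg X = ∑ r ∈ Sp q m, vv r X * e3 r := by
  classical
  set T := (Sp q m).filter fun r => vv r X = 1 with hT
  have hTS : ∀ r ∈ T, r ∈ Sp q m ∧ vv r X = 1 := fun r hr => mem_filter.1 hr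
  have hTm : T ⊆ m.primeFactors := fun r hr => (mem_Sp.1 (hTS r hr).1).1
  have hpr : ∀ r ∈ T, r.Prime := fun r hr => Nat.prime_of_mem_primeFactors (hTm hr)
  set N : ℕ := ∏ r ∈ T, r with hN
  have hN0 : N ≠ 0 := prod_ne_zero_iff.2 fun r hr => (hpr r hr).ne_zero
  have hNf : N.primeFactors = T := Nat.primeFactors_prod hpr
  have hNsq : Squarefree N := by
    refine ha.sqf.squarefree_of_dvd ?_
    rw [hN, ← Nat.prod_primeFactors_of_squarefree ha.sqf]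
    exact prod_dvd_prod_of_subset _ _ _ hTm
  have hsum : ∑ r ∈ Sp q m, vv r X * e3 r = ∑ r ∈ T, e3 r := by
    rw [hT, sum_filter]
    refine sum_congr rfl fun r _ => ?_
    rcases zmod2_cases (vv r X) with h | h
    · rw [h, zero_mul, if_neg (by decide)]
    · rw [h, one_mul, if_pos rfl]
  rw [hsum]
  have ho : ∀ r ∈ T, r % 2 = 1 := fun r hr =>
    (hpr r hr).eq_two_or_odd.resolve_left (ha.p2 (hTm hr))
  have hp4 := prod4 ho
  rw [← hN] at hp4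
  obtain ⟨σ, hσ, hσX⟩ : ∃ σ : ℤ, (σ = 1 ∧ sg X = 0 ∨ σ = -1 ∧ sg X = 1) ∧ |X| = σ * X := by
    rcases lt_or_gt_of_ne hX with h9 | h9
    · exact ⟨-1, Or.inr ⟨rfl, sg_neg h9⟩, by rw [abs_of_neg h9]; ring⟩
    · exact ⟨1, Or.inl ⟨rfl, sg_pos h9⟩, by rw [abs_of_pos h9]; ring⟩
  have hq4 : (q : ℤ) % 4 = 1 := by
    have := h.h8
    omega
  have hqp : (0 : ℤ) < q := by exact_mod_cast h.pr.pos
  obtain ⟨k, hk, hk4, hkp, hvq, hvl⟩ : ∃ k : ℤ, k ≠ 0 ∧ k % 4 = 1 ∧ 0 < k ∧ vv q k = vv q X ∧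
      ∀ l : ℕ, l.Prime → l ≠ q → vv l k = 0 := by
    rcases zmod2_cases (vv q X) with h9 | h9
    · have e1 : ∀ l : ℕ, l.Prime → vv l (1 : ℤ) = 0 := by
        intro l hl
        apply vv_not_dvd
        intro h3
        have h4 : l ∣ 1 := by exact_mod_cast h3
        exact hl.one_lt.ne' (Nat.dvd_one.1 h4)
      exact ⟨1, one_ne_zero, rfl, one_pos, by rw [h9]; exact e1 q h.pr, fun l hl _ => e1 l hl⟩
    · exact ⟨q, hqp.ne', hq4, hqp, by rw [h9]; exact vv_self h.pr, fun l hl hlq =>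
        vv_other hl h.pr (Ne.symm hlq)⟩
  have hNz : (N : ℤ) ≠ 0 := by exact_mod_cast hN0
  have hNp : (0 : ℤ) < N := by exact_mod_cast Nat.pos_of_ne_zero hN0
  have hXa : 0 < |X| := abs_pos.2 hX
  have hva : ∀ l : ℕ, vv l |X| = vv l X := by
    intro l
    unfold vv
    rw [Int.natAbs_abs]
  obtain ⟨s, hs⟩ := isSquare_of_vv (A := |X| * N * k) (by positivity) (fun l hl => by
    rw [vv_mul l (mul_ne_zero hXa.ne' hNz) hk, vv_mul l hXa.ne' hNz, hva]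
    by_cases hlq : l = q
    · rw [hlq]
      have e1 : vv q (N : ℤ) = 0 := by
        apply vv_not_mem
        rw [hNf]
        exact fun h => q_nS ha (hTS q h).1
      rw [e1, hvq, add_zero, add_self2]
    · rw [hvl l hl hlq, add_zero]
      by_cases hqT : l ∈ T
      · rw [vv_sqfree hNsq (by rw [hNf]; exact hqT), (hTS l hqT).2]
        decide
      · rw [vv_not_mem (by rw [hNf]; exact hqT), add_zero]
        by_cases hqS : l ∈ Sp q m
        · rcases zmod2_cases (vv l X) with h9 | h9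
          · exact h9
          · exact absurd (mem_filter.2 ⟨hqS, h9⟩) hqT
        · exact hout l hl hlq hqS)
  rw [hσX] at hs
  have hXp : (X : ℚ_[2]) ≠ 0 := by exact_mod_cast hX
  have hsp : (σ : ℚ_[2]) * X * N * k = (s : ℚ_[2]) * s := by
    have := congrArg (fun z : ℤ => (z : ℚ_[2])) hs
    push_cast at this
    exact this
  have hN2 : (N : ℤ) % 2 = 1 := by
    rcases hp4 with ⟨h9, -⟩ | ⟨h9, -⟩ <;> omega
  have hk2 : k % 2 = 1 := by omega
  have hσ2 : σ % 2 = 1 := by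
    rcases hσ with ⟨h9, -⟩ | ⟨h9, -⟩ <;> rw [h9] <;> rfl
  have key := mod4_of (n := σ * N * k) (odd_mul (odd_mul hσ2 hN2) hk2) (d := s * c / X) (t := t) (by
    push_cast
    rw [div_pow, mul_pow]
    field_simp
    linear_combination (X : ℚ_[2]) * hsp + (s : ℚ_[2]) ^ 2 * hc)
  rw [Int.mul_emod, Int.mul_emod σ, hk4] at key
  rcases hσ with ⟨h9, h9'⟩ | ⟨h9, h9'⟩ <;> rcases hp4 with ⟨h10, h11⟩ | ⟨h10, h11⟩
  · rw [h9', h11]
  · exfalso
    have e : (N : ℤ) % 4 = 3 := by omega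
    rw [h9, e] at key
    norm_num at key
  · exfalso
    have e : (N : ℤ) % 4 = 1 := by omega
    rw [h9, e] at key
    norm_num at key
  · rw [h9', h11]

/-- a positive integer whose odd exponents are at `q` only -/
theorem endq (h : Dat q α β γ) {X : ℤ} (hX : 0 < X)
    (hv : ∀ l : ℕ, l.Prime → l ≠ q → vv l X = 0) {b d : ℚ}
    (hd : d ≠ 0) (hXb : (X : ℚ) = b * d ^ 2) : ∃ c : ℚ, b = c ^ 2 ∨ b = q * c ^ 2 := by
  have hb : b = X / d ^ 2 := by rw [hXb]; field_simp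
  have hqp : (0 : ℤ) < q := by exact_mod_cast h.pr.pos
  have hqq : (q : ℚ) ≠ 0 := by exact_mod_cast h.pr.ne_zero
  rcases zmod2_cases (vv q X) with h2 | h2
  · obtain ⟨r, hr⟩ := isSquare_of_vv hX (fun l hl => by
      by_cases h3 : l = q
      · rw [h3, h2]
      · exact hv l hl h3)
    refine ⟨r / d, Or.inl ?_⟩
    rw [hb, hr, div_pow]
    push_cast
    ring
  · obtain ⟨r, hr⟩ := isSquare_of_vv (A := q * X) (by positivity) (fun l hl => by
      rw [vv_mul l hqp.ne' hX.ne']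
      by_cases h3 : l = q
      · have e2 : vv q (q : ℤ) = 1 := vv_self h.pr
        rw [h3, h2, e2]
        decide
      · have e2 : vv l (q : ℤ) = 0 := vv_other hl h.pr (Ne.symm h3)
        rw [e2, hv l hl h3, add_zero])
    refine ⟨r / (q * d), Or.inr ?_⟩
    have h3 : (q : ℚ) * X = r * r := by exact_mod_cast hr
    rw [hb, div_pow]
    field_simp
    linear_combination h3

theorem real_pos (h : Dat q α β γ) (hα : 0 < α) (ha : Adm q α β γ m) {X : ℚ}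
    (hC : C1 ℝ ((-2 * ((q : ℤ) * α) * m : ℤ) : ℚ) (((q : ℤ) * γ ^ 2 * m ^ 2 : ℤ) : ℚ) X) :
    0 < X := by
  obtain ⟨z, m', hz, hzm, hm'⟩ := hC
  have hmr : (0 : ℝ) < m := by exact_mod_cast Nat.pos_of_ne_zero ha.sqf.ne_zero
  have hqr : (0 : ℝ) < q := by exact_mod_cast h.pr.pos
  have har : (0 : ℝ) < α := by exact_mod_cast hα
  have hgr : (γ : ℝ) ≠ 0 := by
    have h2 : γ ≠ 0 := by
      have := h.og
      omega
    exact_mod_cast h2
  push_cast at hm'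
  have hB : 0 < (q : ℝ) * (γ : ℝ) ^ 2 * (m : ℝ) ^ 2 := by positivity
  have hm1 : 0 < m' := by
    rcases hm' with hm' | hm' | ⟨h0, y, hy⟩
    · rw [hm']; exact one_pos
    · rw [hm']; exact hB
    · by_contra h1
      have h2 : m' < 0 := lt_of_le_of_ne (not_lt.1 h1) h0
      have h3 : 0 < m' ^ 2 + -2 * ((q : ℝ) * α) * m * m' + (q : ℝ) * (γ : ℝ) ^ 2 * (m : ℝ) ^ 2 := by
        have h4 : 0 < ((q : ℝ) * α) * m * -m' := mul_pos (mul_pos (mul_pos hqr har) hmr)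
          (by linarith)
        nlinarith [sq_nonneg m']
      nlinarith [sq_nonneg y, mul_neg_of_neg_of_pos h2 h3]
  have h5 : 0 < (X : ℝ) := by
    by_contra h6
    have h7 : (X : ℝ) * z ^ 2 ≤ 0 := mul_nonpos_of_nonpos_of_nonneg (not_lt.1 h6) (sq_nonneg z)
    linarith
  exact_mod_cast h5

/-- the first Selmer bound -/
theorem sel1c (h : Dat q α β γ) (ha : Adm q α β γ m) (hk : Gd q (fq q α β) m.primeFactors) {b : ℚ}
    (hb : b ≠ 0)
    (hL : ∀ (l : ℕ) [Fact l.Prime], C1 ℚ_[l] (((q : ℤ) * α * m : ℤ) : ℚ)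
      (((q : ℤ) * β ^ 2 * m ^ 2 : ℤ) : ℚ) b) :
    ∃ c : ℚ, b = c ^ 2 ∨ b = q * c ^ 2 := by
  have hm := ha.sqf
  obtain ⟨X, d, hX, hd, hXb⟩ := exists_X hb
  have hall : ∀ l : ℕ, ∀ hl : l.Prime, @C1 (@Padic l ⟨hl⟩) _ (((q : ℤ) * α * m : ℤ) : ℚ)
      (((q : ℤ) * β ^ 2 * m ^ 2 : ℤ) : ℚ) (X : ℚ) := by
    intro l hl
    have : Fact l.Prime := ⟨hl⟩
    rw [hXb]
    exact C1_mul hd (hL l)
  have hout : ∀ l : ℕ, l.Prime → l ≠ q → l ∉ Sp q m → vv l X = 0 := fun l hl h2 hlS =>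
    out1 h ha hX hl h2 hlS (hall l hl)
  have hsg : sg X = ∑ r ∈ Sp q m, vv r X * e3 r := by
    obtain ⟨c, t, -, hc⟩ := class2 h ha (hall 2 Nat.prime_two)
    exact sgnq h ha hX hout hc
  have hin : ∀ p ∈ Sp q m, vv p X = 0 := by
    refine (Gd_tr q _ m).1 hk (fun p => vv p X) fun p hpS => ?_
    obtain ⟨hp, h8⟩ := mem_Sp.1 hpS
    have hpp := Nat.prime_of_mem_primeFactors hp
    have hp2 := ha.p2 hp
    have : Fact p.Prime := ⟨hpp⟩
    have h3 := row1 h ha hp h8 hX (hall p hpp)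
    rw [lam_Sp ha h8 hout, lam_m hm, hsg] at h3
    have h4 : ∑ r ∈ Sp q m, vv r X * nr r p = ∑ r ∈ Sp q m, vv r X * nr p r +
        (∑ r ∈ Sp q m, vv r X * e3 r) * e3 p + vv p X * e3 p := by
      have h5 : ∀ r ∈ Sp q m, vv r X * nr r p = vv r X * nr p r + vv r X * e3 r * e3 p +
          if r = p then vv p X * e3 p else 0 := by
        intro r hrS
        obtain ⟨hr, hr8⟩ := mem_Sp.1 hrS
        have hrr := Nat.prime_of_mem_primeFactors hr
        have hr2 := ha.p2 hr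
        by_cases hrp : r = p
        · rw [if_pos hrp, hrp, nr_self, mul_assoc, e3_sq]
          linear_combination -add_self2 (vv p X * e3 p)
        · rw [if_neg hrp, ← recip hpp hrr hp2 hr2 (Ne.symm hrp)]
          ring
      rw [sum_congr rfl h5, sum_add_distrib, sum_add_distrib, sum_ite_eq', if_pos hpS, sum_mul]
    rw [h4]
    linear_combination h3
  have hs0 : sg X = 0 := by
    rw [hsg]
    exact sum_eq_zero fun r hr => by rw [hin r hr, zero_mul]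
  have hX0 : 0 < X := by
    rcases lt_or_gt_of_ne hX with h9 | h9
    · rw [sg_neg h9] at hs0
      exact absurd hs0 (by decide)
    · exact h9
  refine endq h hX0 (fun l hl h2 => ?_) hd hXb
  by_cases hlS : l ∈ Sp q m
  · exact hin l hlS
  · exact hout l hl h2 hlS

/-- the second Selmer bound -/
theorem sel2c (h : Dat q α β γ) (hα : 0 < α) (ha : Adm q α β γ m)
    (hk : Gd q (fq q α β) m.primeFactors) {b : ℚ} (hb : b ≠ 0)
    (hL : ∀ (l : ℕ) [Fact l.Prime], C1 ℚ_[l] ((-2 * ((q : ℤ) * α) * m : ℤ) : ℚ)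
      (((q : ℤ) * γ ^ 2 * m ^ 2 : ℤ) : ℚ) b)
    (hR : C1 ℝ ((-2 * ((q : ℤ) * α) * m : ℤ) : ℚ) (((q : ℤ) * γ ^ 2 * m ^ 2 : ℤ) : ℚ) b) :
    ∃ c : ℚ, b = c ^ 2 ∨ b = q * c ^ 2 := by
  have hm := ha.sqf
  obtain ⟨X, d, hX, hd, hXb⟩ := exists_X hb
  have hall : ∀ l : ℕ, ∀ hl : l.Prime, @C1 (@Padic l ⟨hl⟩) _ ((-2 * ((q : ℤ) * α) * m : ℤ) : ℚ)
      (((q : ℤ) * γ ^ 2 * m ^ 2 : ℤ) : ℚ) (X : ℚ) := by
    intro l hl
    have : Fact l.Prime := ⟨hl⟩
    rw [hXb]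
    exact C1_mul hd (hL l)
  have hX0 : 0 < X := by
    have : (0 : ℚ) < X := by
      refine real_pos h hα ha ?_
      rw [hXb]
      exact C1_mul hd hR
    exact_mod_cast this
  have hout : ∀ l : ℕ, l.Prime → l ≠ q → l ∉ Sp q m → vv l X = 0 := fun l hl h2 hlS =>
    out2 h ha hX hl h2 hlS (hall l hl)
  have hin : ∀ p ∈ m.primeFactors, IsSquare (q : ZMod p) → vv p X = 0 := by
    refine hk (fun p => vv p X) fun p hp h8 => ?_
    have hpp := Nat.prime_of_mem_primeFactors hp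
    have : Fact p.Prime := ⟨hpp⟩
    have h3 := row2 h ha hp h8 hX0 (hall p hpp)
    rw [lam_Sp ha h8 hout, lam_m hm] at h3
    rw [sum_cu]
    have h4 : ∑ r ∈ Sp q m, nr p r * vv r X = ∑ r ∈ Sp q m, vv r X * nr p r :=
      sum_congr rfl fun r _ => mul_comm _ _
    rw [h4]
    linear_combination h3
  refine endq h hX0 (fun l hl h2 => ?_) hd hXb
  by_cases hlS : l ∈ Sp q m
  · exact hin l (mem_Sp.1 hlS).1 (mem_Sp.1 hlS).2
  · exact hout l hl h2 hlS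

theorem eqs (h : Dat q α β γ) (m : ℕ) :
    (-2 * (((q : ℤ) * α * m : ℤ) : ℚ)) = ((-2 * ((q : ℤ) * α) * m : ℤ) : ℚ) ∧
    ((((q : ℤ) * α * m : ℤ) : ℚ) ^ 2 - 4 * (((q : ℤ) * β ^ 2 * m ^ 2 : ℤ) : ℚ)) =
      (((q : ℤ) * γ ^ 2 * m ^ 2 : ℤ) : ℚ) := by
  constructor
  · push_cast
    ring
  · have e' : ((q : ℤ) * α * m) ^ 2 - 4 * ((q : ℤ) * β ^ 2 * m ^ 2) =
        ((q : ℤ) * γ ^ 2 * m ^ 2 : ℤ) := by linear_combination ((q : ℤ) * (m : ℤ) ^ 2) * h.rel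
    exact_mod_cast congrArg (fun z : ℤ => (z : ℚ)) e'

theorem sel1 (h : Dat q α β γ) (ha : Adm q α β γ m) (hk : Gd q (fq q α β) m.primeFactors) {b : ℚ}
    (hb : b ≠ 0)
    (hL : LL1 (((q : ℤ) * α * m : ℤ) : ℚ) (((q : ℤ) * β ^ 2 * m ^ 2 : ℤ) : ℚ) b) :
    ∃ c : ℚ, b = c ^ 2 ∨ b = q * c ^ 2 := sel1c h ha hk hb fun l _ => LL1_pad hL l

theorem sel2 (h : Dat q α β γ) (hα : 0 < α) (ha : Adm q α β γ m)
    (hk : Gd q (fq q α β) m.primeFactors) {b : ℚ} (hb : b ≠ 0)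
    (hL : LL2 (((q : ℤ) * α * m : ℤ) : ℚ) (((q : ℤ) * β ^ 2 * m ^ 2 : ℤ) : ℚ) b) :
    ∃ c : ℚ, b = c ^ 2 ∨ b = q * c ^ 2 := by
  obtain ⟨eA, eB⟩ := eqs h m
  refine sel2c h hα ha hk hb (fun l _ => ?_) ?_
  · rw [← eA, ← eB]
    exact Run7.h843.R.C2_iff.1 (LL2_pad hL l)
  · rw [← eA, ← eB]
    exact Run7.h843.R.C2_iff.1 (LL2_real hL)

/-- **rank zero and no element of order two in Sha** -/
theorem sha16 (h : Dat q α β γ) (hα : 0 < α) (ha : Adm q α β γ m)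
    (hk : Gd q (fq q α β) m.primeFactors) {W : WeierstrassCurve ℚ}
    (hT : IsT W (((q : ℤ) * α * m : ℤ) : ℚ) (((q : ℤ) * β ^ 2 * m ^ 2 : ℤ) : ℚ)) :
    Module.finrank ℤ (MP W) = 0 ∧
      ∀ (n : ℕ) (x : Pool.Agent.TH841.NF.D.Sha W), 2 ^ n • x = 0 → x = 0 := by
  have rq : (q : ℚ) ≠ 0 := by exact_mod_cast h.pr.ne_zero
  let U : Set (ℚˣ ⧸ Sq ℚ) := {cl 1 one_ne_zero, cl q rq}
  have hfin : Finite U := (Set.toFinite U).to_subtype
  have hU2 : Nat.card U ≤ 2 := by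
    have h1 : U.ncard ≤ 2 := by
      refine (Set.ncard_insert_le _ _).trans ?_
      rw [Set.ncard_singleton]
    exact h1
  have H : ∀ b : ℚˣ, (∃ c : ℚ, (b : ℚ) = c ^ 2 ∨ (b : ℚ) = q * c ^ 2) → (b : ℚˣ ⧸ Sq ℚ) ∈ U := by
    rintro b ⟨c, hc | hc⟩
    · exact Or.inl (cl_of _ (by rw [one_mul]; exact hc))
    · exact Or.inr (cl_of _ hc)
  obtain ⟨hf, hc⟩ := Zc_card hT (U := U) (V := U) (Or.inl one_cl)
    (fun b hb => H b (sel1 h ha hk b.ne_zero hb))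
    (fun b hb => H b (sel2 h hα ha hk b.ne_zero hb))
  exact end_of hT hf (hc.trans (by nlinarith))

end

end Pool.Agent.Run7.h289.D16
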